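import Pool.Agent.Q220.Match.Main

/-!
Degree-one vertices do not prevent percolation of the stable multi-matching: for the law `ν` giving
mass `2 ^ {-(i+1)}` to `2 * 4 ^ i`, the degree law `p δ₁ + (1 - p) ν` percolates in every dimension
`d ≥ 1` for every `p < 1`.
-/

set_option autoImplicit false

namespace Pool.Agent.Results.MP_bae357_pr.HeavyTailPercolates

open MeasureTheory ProbabilityTheory Pool.Agent.Q220.MM
open scoped ENNReal

universe u

/-- There is a probability law `ν` on `{2, 3, …}` such that for every `d ≥ 1` and every `p < 1`,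
for the Poisson process of intensity one in `ℝ^d` (enumerated as `x n`) with independent numbers
`D n` of stubs of law `p δ₁ + (1 - p) ν`, almost surely every stable multi-matching has an infinite
component. -/
theorem result : ∃ ν : Measure ℕ, IsProbabilityMeasure ν ∧ ν {n | n < 2} = 0 ∧
    ∀ d : ℕ, 1 ≤ d → ∀ p : ℝ≥0∞, p < 1 →
      ∀ (Ω : Type u) [MeasurableSpace Ω] (P : Measure Ω) [IsProbabilityMeasure P]
        (x : Ω → ℕ → EuclideanSpace ℝ (Fin d)) (D : Ω → ℕ → ℕ),
        IsMarkedPoisson P (p • Measure.dirac 1 + (1 - p) • ν) x D →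
        ∀ᵐ ω ∂P, ∀ G : SimpleGraph ℕ, Stable (x ω) (D ω) G →
          ∃ C : G.ConnectedComponent, C.supp.Infinite := by
  refine ⟨geo fun i => 2 * 4 ^ i, inferInstance, ?_, ?_⟩
  · rw [geo_apply]
    rw [ENNReal.tsum_eq_zero]
    intro i
    rw [Set.indicator_of_notMem, mul_zero]
    intro h
    have h1 : 1 ≤ 4 ^ i := Nat.one_le_pow _ _ (by norm_num)
    have h2 : 2 * 4 ^ i < 2 := h
    omega
  · intro d hd p hp Ω _ P _ x D h
    have : Nonempty (Fin d) := ⟨⟨0, hd⟩⟩
    have : IsProbabilityMeasure (p • Measure.dirac (1 : ℕ) + (1 - p) • geo fun i => 2 * 4 ^ i) := by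
      constructor
      simp only [Measure.coe_add, Measure.coe_smul, Pi.add_apply, Pi.smul_apply, smul_eq_mul,
        measure_univ, mul_one]
      exact add_tsub_cancel_of_le hp.le
    have hpos : 0 < (1 - p).toReal :=
      ENNReal.toReal_pos (tsub_pos_of_lt hp).ne' (ne_top_of_le_ne_top ENNReal.one_ne_top tsub_le_self)
    refine percolates h (c := (1 - p).toReal * (1 / 2)) (by positivity) fun k => ?_
    have h1 : (1 - p) * (2⁻¹ : ℝ≥0∞) ^ (k + 1) ≤
        (p • Measure.dirac (1 : ℕ) + (1 - p) • geo fun i => 2 * 4 ^ i) {n | 2 * 4 ^ k ≤ n} := by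
      simp only [Measure.coe_add, Measure.coe_smul, Pi.add_apply, Pi.smul_apply, smul_eq_mul]
      have h2 : (2⁻¹ : ℝ≥0∞) ^ (k + 1) ≤ geo (fun i => 2 * 4 ^ i) {n | 2 * 4 ^ k ≤ n} :=
        geo_ge _ (le_refl (2 * 4 ^ k))
      calc (1 - p) * (2⁻¹ : ℝ≥0∞) ^ (k + 1) ≤ (1 - p) * geo (fun i => 2 * 4 ^ i) {n | 2 * 4 ^ k ≤ n} := by
            gcongr
        _ ≤ _ := le_add_self
    have h3 := ENNReal.toReal_mono (measure_ne_top _ _) h1
    refine le_trans (le_of_eq ?_) h3
    rw [ENNReal.toReal_mul, ENNReal.toReal_pow, ENNReal.toReal_inv, ENNReal.toReal_ofNat]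
    ring

end Pool.Agent.Results.MP_bae357_pr.HeavyTailPercolates
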